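import Pool.Agent.helper55.RI.Spec

set_option autoImplicit false

namespace Pool.Agent.RI

open Pool.Agent.helper62 Prog Function Pool.Agent.helper81.PL

/-- the effect of an instruction -/
def X8_step (p : Ins × (ℕ × List W)) : ℕ × List W :=
  if p.1.1 = 0 then (p.1.2.2.2.1, p.2.2)
  else if p.1.1 = 1 then
    (p.1.2.2.2.1, p.2.2.set p.1.2.1 (p.1.2.2.1 :: p.2.2.getD p.1.2.1 []))
  else List.casesOn (motive := fun _ => ℕ × List W) (p.2.2.getD p.1.2.1 []) (p.1.2.2.2.1, p.2.2)
    (fun b l => cond b (p.1.2.2.2.2.2, p.2.2.set p.1.2.1 l) (p.1.2.2.2.2.1, p.2.2.set p.1.2.1 l))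

theorem X8_set {α : Type} [Primcodable α] {f : α → List W} {g : α → ℕ} {h : α → W}
    (hf : Primrec f) (hg : Primrec g) (hh : Primrec h) :
    Primrec (fun a => (f a).set (g a) (h a)) := by
  have h1 := Primrec.pair hg hh
  have h2 := (Primrec.list_set (α := W)).comp hf h1
  exact h2

theorem X8_step_primrec : Primrec X8_step := by
  have hop : Primrec (fun p : Ins × (ℕ × List W) => p.1.1) := Primrec.fst.comp Primrec.fst
  have h2 : Primrec (fun p : Ins × (ℕ × List W) => p.1.2) := Primrec.snd.comp Primrec.fst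
  have hk : Primrec (fun p : Ins × (ℕ × List W) => p.1.2.1) := Primrec.fst.comp h2
  have h3 : Primrec (fun p : Ins × (ℕ × List W) => p.1.2.2) := Primrec.snd.comp h2
  have hb : Primrec (fun p : Ins × (ℕ × List W) => p.1.2.2.1) := Primrec.fst.comp h3
  have h4 : Primrec (fun p : Ins × (ℕ × List W) => p.1.2.2.2) := Primrec.snd.comp h3
  have hj0 : Primrec (fun p : Ins × (ℕ × List W) => p.1.2.2.2.1) := Primrec.fst.comp h4
  have h5 : Primrec (fun p : Ins × (ℕ × List W) => p.1.2.2.2.2) := Primrec.snd.comp h4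
  have hj1 : Primrec (fun p : Ins × (ℕ × List W) => p.1.2.2.2.2.1) := Primrec.fst.comp h5
  have hj2 : Primrec (fun p : Ins × (ℕ × List W) => p.1.2.2.2.2.2) := Primrec.snd.comp h5
  have hS : Primrec (fun p : Ins × (ℕ × List W) => p.2.2) := Primrec.snd.comp Primrec.snd
  have hget : Primrec (fun p : Ins × (ℕ × List W) => p.2.2.getD p.1.2.1 []) :=
    (Primrec.list_getD ([] : W)).comp hS hk
  have hc0 : PrimrecPred (fun p : Ins × (ℕ × List W) => p.1.1 = 0) :=
    Primrec.eq.comp hop (Primrec.const 0)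
  have hc1 : PrimrecPred (fun p : Ins × (ℕ × List W) => p.1.1 = 1) :=
    Primrec.eq.comp hop (Primrec.const 1)
  have hpush : Primrec (fun p : Ins × (ℕ × List W) =>
      p.2.2.set p.1.2.1 (p.1.2.2.1 :: p.2.2.getD p.1.2.1 [])) :=
    X8_set hS hk (Primrec.list_cons.comp hb hget)
  have hset : Primrec (fun x : (Ins × (ℕ × List W)) × (Bool × List Bool) =>
      x.1.2.2.set x.1.1.2.1 x.2.2) :=
    X8_set (hS.comp Primrec.fst) (hk.comp Primrec.fst) (Primrec.snd.comp Primrec.snd)
  have hcase : Primrec₂ (fun (p : Ins × (ℕ × List W)) (x : Bool × List Bool) =>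
      cond x.1 (p.1.2.2.2.2.2, p.2.2.set p.1.2.1 x.2) (p.1.2.2.2.2.1, p.2.2.set p.1.2.1 x.2)) :=
    (Primrec.cond (Primrec.fst.comp Primrec.snd) (Primrec.pair (hj2.comp Primrec.fst) hset)
      (Primrec.pair (hj1.comp Primrec.fst) hset)).to₂
  have e0 := Primrec.pair hj0 hS
  have e1 := Primrec.list_casesOn hget e0 hcase
  have e2 := Primrec.ite hc1 (Primrec.pair hj0 hpush) e1
  have e3 := Primrec.ite hc0 e0 e2
  exact e3

theorem X8_gstep_eq (L : List Ins) (c : ℕ × List W) :
    gstep L c = Option.casesOn (motive := fun _ => ℕ × List W) (L[c.1]?) c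
      (fun i => X8_step (i, c)) := by
  unfold gstep X8_step
  cases L[c.1]? with
  | none => rfl
  | some i =>
    obtain ⟨op, k, b, j0, j1, j2⟩ := i
    simp only
    split_ifs with h0 h1
    · rfl
    · rfl
    · cases c.2.getD k [] with
      | nil => rfl
      | cons a l => cases a <;> rfl

theorem X8_gstep_primrec : Primrec₂ gstep := by
  have h1 : Primrec (fun x : List Ins × (ℕ × List W) => x.1[x.2.1]?) :=
    Primrec.list_getElem?.comp Primrec.fst (Primrec.fst.comp Primrec.snd)
  have h2 : Primrec₂ (fun (x : List Ins × (ℕ × List W)) (i : Ins) => X8_step (i, x.2)) :=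
    (X8_step_primrec.comp (Primrec.pair Primrec.snd (Primrec.snd.comp Primrec.fst))).to₂
  exact (Primrec.option_casesOn h1 Primrec.snd h2).of_eq fun x => (X8_gstep_eq x.1 x.2).symm

theorem X8_pow_primrec : Primrec₂ (fun (b d : ℕ) => b ^ d) := by
  have h : Primrec₂ (fun (p : ℕ × ℕ) (y : ℕ) => y * p.1) :=
    (Primrec.nat_mul.comp Primrec.snd (Primrec.fst.comp Primrec.fst)).to₂
  refine (Primrec.nat_iterate (f := fun p : ℕ × ℕ => p.2) (g := fun _ => 1)
    (h := fun p y => y * p.1) Primrec.snd (Primrec.const 1) h).of_eq fun p => ?_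
  obtain ⟨b, d⟩ := p
  simp only
  induction d with
  | zero => rfl
  | succ d ih => rw [Function.iterate_succ_apply', ih, pow_succ]

theorem X8_replicate_primrec : Primrec (fun n : ℕ => List.replicate n ([] : W)) := by
  have h : Primrec₂ (fun (_ : ℕ) (l : List W) => ([] : W) :: l) :=
    (Primrec.list_cons.comp (Primrec.const ([] : W)) Primrec.snd).to₂
  refine (Primrec.nat_iterate (f := fun n : ℕ => n) (g := fun _ => ([] : List W))
    (h := fun _ l => ([] : W) :: l) Primrec.id (Primrec.const []) h).of_eq fun n => ?_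
  induction n with
  | zero => rfl
  | succ n ih => rw [Function.iterate_succ_apply', ih, List.replicate_succ]

theorem X8_ev_primrec : Primrec₂ ev := by
  have hlen : Primrec (fun x : (List Ins × ℕ × ℕ) × W => x.2.length + 2) :=
    Primrec.nat_add.comp (Primrec.list_length.comp Primrec.snd) (Primrec.const 2)
  have hd : Primrec (fun x : (List Ins × ℕ × ℕ) × W => x.1.2.2) :=
    Primrec.snd.comp (Primrec.snd.comp Primrec.fst)
  have hn : Primrec (fun x : (List Ins × ℕ × ℕ) × W => (x.2.length + 2) ^ x.1.2.2) :=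
    X8_pow_primrec.comp hlen hd
  have hini : Primrec (fun x : (List Ins × ℕ × ℕ) × W =>
      ((0 : ℕ), x.2 :: List.replicate x.1.2.1 ([] : W))) :=
    Primrec.pair (Primrec.const 0) (Primrec.list_cons.comp Primrec.snd
      (X8_replicate_primrec.comp (Primrec.fst.comp (Primrec.snd.comp Primrec.fst))))
  have hstep : Primrec₂ (fun (x : (List Ins × ℕ × ℕ) × W) (c : ℕ × List W) => gstep x.1.1 c) :=
    (X8_gstep_primrec.comp (Primrec.fst.comp (Primrec.fst.comp Primrec.fst)) Primrec.snd).to₂
  have hit := Primrec.nat_iterate hn hini hstep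
  have hhead : Primrec (fun l : List W => l.headD []) := by
    refine (Primrec.option_getD.comp (Primrec.list_head? (α := W)) (Primrec.const [])).of_eq
      fun l => ?_
    cases l <;> rfl
  exact (hhead.comp (Primrec.snd.comp hit)).of_eq fun x => rfl

theorem X8 : X8_stmt := by
  have hdec : Primrec (fun k : ℕ =>
      (Encodable.decode (α := List Ins × ℕ × ℕ) k).getD ([], 0, 0)) :=
    Primrec.option_getD.comp Primrec.decode (Primrec.const ([], 0, 0))
  have h : Primrec (fun p : ℕ × W => E p.1 p.2) :=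
    (X8_ev_primrec.comp (hdec.comp Primrec.fst) Primrec.snd).of_eq fun p => rfl
  exact h.to_comp

end Pool.Agent.RI
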